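import Pool.Agent.Lib.MP_ddf864_co.LRGlue

/-!
# MP_ddf864_co : tangential blocks of rank up to `3 k / 2` have a spanning bond
-/

open MPddf864

private theorem aux_pow (u : ℕ) : u * 3 ^ u ≤ 2 * 4 ^ u := by
  rcases Nat.lt_or_ge u 3 with h | h
  · interval_cases u <;> norm_num
  · have key : ∀ w, 3 ≤ w → w * 3 ^ w ≤ 2 * 4 ^ w ∧ 3 * 3 ^ w ≤ 2 * 4 ^ w := by
      intro w hw
      induction w, hw using Nat.le_induction with
      | base => norm_num
      | succ w _ ih =>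
        obtain ⟨h1, h2⟩ := ih
        constructor
        · calc (w + 1) * 3 ^ (w + 1) = 3 * (w * 3 ^ w) + 3 * 3 ^ w := by ring
            _ ≤ 3 * (2 * 4 ^ w) + 2 * 4 ^ w := by omega
            _ = 2 * 4 ^ (w + 1) := by ring
        · calc 3 * 3 ^ (w + 1) = 3 * (3 * 3 ^ w) := by ring
            _ ≤ 4 * (2 * 4 ^ w) := by omega
            _ = 2 * 4 ^ (w + 1) := by ring
    exact (key u h).1

private theorem aux_half {q k u : ℕ} (hq : 2 ≤ q) (h : 2 * u + 2 ≤ k) :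
    2 * u * (2 * q - 1) ^ u ≤ (q - 1) * q ^ k := by
  have h1 : 4 * (2 * q - 1) ≤ 3 * q ^ 2 := by
    obtain ⟨p, rfl⟩ := Nat.exists_eq_add_of_le hq
    have : 2 * (2 + p) - 1 = 2 * p + 3 := by omega
    rw [this]
    nlinarith
  have h2 : 4 ≤ (q - 1) * q ^ 2 := by
    calc 4 = 1 * 2 ^ 2 := by norm_num
      _ ≤ (q - 1) * q ^ 2 := Nat.mul_le_mul (by omega) (Nat.pow_le_pow_left hq 2)
  have h3 : 4 ^ u * (2 * u * (2 * q - 1) ^ u) ≤ 4 ^ u * ((q - 1) * q ^ k) := by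
    calc 4 ^ u * (2 * u * (2 * q - 1) ^ u) = 2 * u * (4 * (2 * q - 1)) ^ u := by
          rw [mul_pow]; ring
      _ ≤ 2 * u * (3 * q ^ 2) ^ u := Nat.mul_le_mul_left _ (Nat.pow_le_pow_left h1 u)
      _ = 2 * (u * 3 ^ u) * q ^ (2 * u) := by rw [mul_pow, ← pow_mul]; ring
      _ ≤ 2 * (2 * 4 ^ u) * q ^ (2 * u) :=
          Nat.mul_le_mul_right _ (Nat.mul_le_mul_left _ (aux_pow u))
      _ = 4 * (4 ^ u * q ^ (2 * u)) := by ring
      _ ≤ (q - 1) * q ^ 2 * (4 ^ u * q ^ (2 * u)) := Nat.mul_le_mul_right _ h2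
      _ = 4 ^ u * ((q - 1) * q ^ (2 * u + 2)) := by rw [pow_add]; ring
      _ ≤ 4 ^ u * ((q - 1) * q ^ k) :=
          Nat.mul_le_mul_left _ (Nat.mul_le_mul_left _ (Nat.pow_le_pow_right (by omega) h))
  exact Nat.le_of_mul_le_mul_left h3 (by positivity)

private theorem aux_large {q k u : ℕ} (hq : k * 2 ^ (k + 1) < q) (h : u ≤ k) :
    2 * u * (2 * q - 1) ^ u ≤ (q - 1) * q ^ k := by
  rcases Nat.eq_zero_or_pos u with h0 | h0
  · rw [h0, mul_zero, zero_mul]
    exact Nat.zero_le _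
  have hq1 : 1 ≤ q := by omega
  calc 2 * u * (2 * q - 1) ^ u ≤ 2 * k * (2 * q) ^ k :=
        Nat.mul_le_mul (by omega) ((Nat.pow_le_pow_left (by omega) u).trans
          (Nat.pow_le_pow_right (by omega) h))
    _ = k * 2 ^ (k + 1) * q ^ k := by rw [mul_pow]; ring
    _ ≤ (q - 1) * q ^ k := Nat.mul_le_mul_right _ (by omega)

/-- Let `M` be a tangential `k`-block over the field `K` with `q` elements.  Then `M` has a spanning
bond in each of the following cases: `r(M) = k + 1 + u` with `2 u (2 q - 1) ^ u ≤ (q - 1) q ^ k`; or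
`r(M) ≤ 3 k / 2`; or `r(M) ≤ 2 k + 1` and `q > k 2 ^ (k + 1)`. -/
theorem Pool.Agent.Results.MP_ddf864_co.LinearRank.result
    (K : Type) [Field K] [Fintype K] {α : Type} [Fintype α] (k : ℕ) (M : Matroid α)
    (hM : IsTangentialBlock K k M)
    (h : (∃ u, rk M M.E = k + 1 + u ∧
        2 * u * (2 * Fintype.card K - 1) ^ u ≤ (Fintype.card K - 1) * Fintype.card K ^ k) ∨
      2 * rk M M.E ≤ 3 * k ∨
      (rk M M.E ≤ 2 * k + 1 ∧ k * 2 ^ (k + 1) < Fintype.card K)) :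
    ∃ C, M.IsCocircuit C ∧ rk M C = rk M M.E := by
  classical
  obtain ⟨n, v, hv⟩ := hM.rep
  have hq : 2 ≤ Fintype.card K := Fintype.one_lt_card
  have hk : k + 1 ≤ rk M M.E := by
    by_contra hcon
    have h1 : cov K (v '' M.E) (rk M M.E) := by
      rw [rk_eq hv subset_rfl]
      refine cov_rank ?_
      rintro ⟨e, he, h0⟩
      exact nonzero_vec hM hv e he h0
    obtain ⟨φ, hφ⟩ := cov_mono h1 (by omega : rk M M.E ≤ k)
    obtain ⟨e, he, h0⟩ := conf_block hM hv φ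
    exact hφ _ ⟨e, he, rfl⟩ h0
  have key : ∃ u, rk M M.E = k + 1 + u ∧
      2 * u * (2 * Fintype.card K - 1) ^ u ≤ (Fintype.card K - 1) * Fintype.card K ^ k := by
    rcases h with h | h | ⟨h1, h2⟩
    · exact h
    · exact ⟨rk M M.E - (k + 1), by omega, aux_half hq (by omega)⟩
    · exact ⟨rk M M.E - (k + 1), by omega, aux_large h2 (by omega)⟩
  obtain ⟨u, hu, hle⟩ := key
  by_contra hcon
  push Not at hcon
  have h1 := (exists_TB hM hv hcon).rank_bound (u := u) (by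
    rw [← hu, rk_eq hv subset_rfl]
    rfl)
  rw [Nat.card_eq_fintype_card] at h1
  omega
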