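import Pool.Agent.Lib.MP_ddf864_co.Mat

/-!
# MP_ddf864_co : bonds of tangential blocks which do not span
-/

open MPddf864

/-- Let `M` be a tangential `k`-block over the finite field `K`.  Every bond of `M` that does not
span has more than `|K|^k` elements and rank at least `k + 3`.  Consequently `M` has a spanning
bond as soon as `r(M) ≤ k + 3` or some bond of `M` has at most `|K|^k` elements. -/
theorem Pool.Agent.Results.MP_ddf864_co.NonspanningBonds.result
    (K : Type) [Field K] [Fintype K] {α : Type} [Fintype α] (k : ℕ) (M : Matroid α)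
    (hM : IsTangentialBlock K k M) :
    (∀ C, M.IsCocircuit C → rk M C < rk M M.E →
      Fintype.card K ^ k < C.ncard ∧ k + 3 ≤ rk M C) ∧
    ((rk M M.E ≤ k + 3 ∨ ∃ C, M.IsCocircuit C ∧ C.ncard ≤ Fintype.card K ^ k) →
      ∃ C, M.IsCocircuit C ∧ rk M C = rk M M.E) := by
  classical
  obtain ⟨n, v, hv⟩ := hM.rep
  have hmono : ∀ C ⊆ M.E, rk M C ≤ rk M M.E := by
    intro C hC
    rw [rk_eq hv hC, rk_eq hv subset_rfl]
    exact Submodule.finrank_mono (Submodule.span_mono (Set.image_mono hC))
  have h1 : ∀ C, M.IsCocircuit C → rk M C < rk M M.E →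
      Fintype.card K ^ k < C.ncard ∧ k + 3 ≤ rk M C := by
    intro C hC hns
    obtain ⟨h, H⟩ := exists_conf hM hv hC hns
    refine ⟨H.card_lt, ?_⟩
    rw [rk_eq hv hC.subset_ground]
    exact H.rank_ge
  refine ⟨h1, ?_⟩
  rintro (hr | ⟨C, hC, hcard⟩)
  · -- `M` has an element, hence a bond
    obtain ⟨e, he, _⟩ := conf_block hM hv 0
    have hpos : M.RankPos := by
      have hi : M.IsNonloop e := by
        rw [← Matroid.indep_singleton]
        have := hM.simple e he e he
        rwa [Set.pair_eq_singleton] at this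
      exact hi.rankPos
    obtain ⟨C, hC⟩ := Matroid.rankPos_iff_exists_isCocircuit.1 hpos
    refine ⟨C, hC, le_antisymm (hmono C hC.subset_ground) ?_⟩
    by_contra hcon
    push Not at hcon
    have := (h1 C hC hcon).2
    omega
  · refine ⟨C, hC, le_antisymm (hmono C hC.subset_ground) ?_⟩
    by_contra hcon
    push Not at hcon
    exact absurd (h1 C hC hcon).1 (not_lt.2 hcard)
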